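import Pool.Agent.Lib.MP_87ece0_an.Assembled

/-!
# Two-phase domains whose non-uniqueness set has full dimension `n - 1`

The definitions used in the statement (`IsNTA`, `HarnackChain`, `IsPoleInfty`, `IsBlowup`, `NU`)
are in `Pool/Agent/Lib/MP_87ece0_an/Defs.lean`.
-/

open MP87 MeasureTheory

namespace Pool.Agent.Results.MP_87ece0_an.FullDimension

/-- For every `n ≥ 2` there are complementary NTA domains in `ℝⁿ` with harmonic measures
`ω⁻ = h ω⁺`, `log h` continuous on the boundary, such that the set of boundary points at which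
the blow-up is not unique has Hausdorff dimension `n - 1`. -/
theorem result (n : ℕ) (hn : 2 ≤ n) :
    ∃ (Ωp Ωm : Set (EuclideanSpace ℝ (Fin n))) (up um : EuclideanSpace ℝ (Fin n) → ℝ)
      (ωp ωm : Measure (EuclideanSpace ℝ (Fin n))) (h : EuclideanSpace ℝ (Fin n) → ℝ) (M : ℝ),
      Ωm = (closure Ωp)ᶜ ∧ frontier Ωp = frontier Ωm ∧ IsNTA Ωp M ∧ IsNTA Ωm M ∧
      IsPoleInfty Ωp up ωp ∧ IsPoleInfty Ωm um ωm ∧
      ωm = ωp.withDensity (fun x => ENNReal.ofReal (h x)) ∧
      (∀ x ∈ frontier Ωp, 0 < h x) ∧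
      ContinuousOn (fun x => Real.log (h x)) (frontier Ωp) ∧
      dimH (NU Ωp) = ((n - 1 : ℕ) : ENNReal) :=
  finalAll n hn

end Pool.Agent.Results.MP_87ece0_an.FullDimension
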